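import Mathlib

/-!
# For `k ≥ 3` the mixed lonely runner parameter space is not determined by finitely many speed sets
-/

namespace Pool.Agent.Results.MP_b1d502_nt.NotFinitelyDetermined

/-- the distance to the nearest integer -/
noncomputable def dist1 (x : ℝ) : ℝ := |x - round x|

/-- speed sets of length `k`: pairwise distinct positive integers -/
def IsSpeedSet {k : ℕ} (s : Fin k → ℕ) : Prop := Function.Injective s ∧ ∀ i, 0 < s i

/-- the box `(0, 1/2] ^ k` -/
def box (k : ℕ) : Set (Fin k → ℝ) := {d | ∀ i, 0 < d i ∧ d i ≤ 1 / 2}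

/-- `A(s)` -/
def A {k : ℕ} (s : Fin k → ℕ) : Set (Fin k → ℝ) :=
  {d | d ∈ box k ∧ ∃ t : ℝ, ∀ i, d i ≤ dist1 ((s i : ℝ) * t)}

/-- `MLPS_k`: the intersection of the `A(s)` over all speed sets of length `k` -/
def MLPS (k : ℕ) : Set (Fin k → ℝ) := {d | d ∈ box k ∧ ∀ s : Fin k → ℕ, IsSpeedSet s → d ∈ A s}

/-- `MLPS_k` is determined by finitely many speed sets -/
def FinitelyDetermined (k : ℕ) : Prop :=
  ∃ F : Finset (Fin k → ℕ), (∀ s ∈ F, IsSpeedSet s) ∧
    MLPS k = {d | d ∈ box k ∧ ∀ s ∈ F, d ∈ A s}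

theorem dist1_nonneg (x : ℝ) : 0 ≤ dist1 x := abs_nonneg _

theorem dist1_le_half (x : ℝ) : dist1 x ≤ 1 / 2 := abs_sub_round x

theorem dist1_le (x : ℝ) (m : ℤ) : dist1 x ≤ |x - m| := round_le x m

theorem le_dist1 {x c : ℝ} (m : ℤ) (h1 : (m : ℝ) + c ≤ x) (h2 : x ≤ m + 1 - c) : c ≤ dist1 x := by
  unfold dist1
  rw [le_abs]
  rcases le_or_gt (round x) m with h | h
  · left
    have : ((round x : ℤ) : ℝ) ≤ m := by exact_mod_cast h
    linarith
  · right
    have : (m : ℝ) + 1 ≤ ((round x : ℤ) : ℝ) := by exact_mod_cast h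
    linarith

theorem dist1_add_int (x : ℝ) (m : ℤ) : dist1 (x + m) = dist1 x := by
  unfold dist1
  rw [round_add_intCast]
  push_cast
  congr 1
  ring

theorem dist1_neg (x : ℝ) : dist1 (-x) = dist1 x := by
  apply le_antisymm
  · have h := dist1_le (-x) (-round x)
    rw [show (-x) - ((-round x : ℤ) : ℝ) = -(x - round x) by push_cast; ring, abs_neg] at h
    exact h
  · have h := dist1_le x (-round (-x))
    rw [show x - ((-round (-x) : ℤ) : ℝ) = -(-x - round (-x)) by push_cast; ring, abs_neg] at h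
    exact h

theorem dist1_pos {x : ℝ} (hx : Irrational x) : 0 < dist1 x := by
  rw [dist1, abs_pos, sub_ne_zero]
  exact hx.ne_int _

/-- `dist1` is 1-Lipschitz -/
theorem dist1_sub_le (x y : ℝ) : dist1 x - |x - y| ≤ dist1 y := by
  have h := dist1_le x (round y)
  have h2 : |x - round y| ≤ |x - y| + |y - round y| := abs_sub_le _ _ _
  unfold dist1 at *
  linarith

/-- `‖3 x‖ = 3 ‖x‖` if `‖x‖ ≤ 1/6` -/
theorem dist1_three {x : ℝ} (h : dist1 x ≤ 1 / 6) : 3 * dist1 x ≤ dist1 (3 * x) := by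
  unfold dist1 at h ⊢
  set y := x - round x with hy
  have e : 3 * x = 3 * y + ((3 * round x : ℤ) : ℝ) := by rw [hy]; push_cast; ring
  have e2 := dist1_add_int (3 * y) (3 * round x)
  rw [← e] at e2
  unfold dist1 at e2
  rw [e2]
  rcases abs_cases y with ⟨h1, h2⟩ | ⟨h1, h2⟩
  · rw [h1] at h ⊢
    exact le_dist1 0 (by rw [Int.cast_zero]; linarith) (by rw [Int.cast_zero]; linarith)
  · rw [h1] at h ⊢
    exact le_dist1 (-1) (by push_cast; linarith) (by push_cast; linarith)

/-- some odd multiple of a non-integer is at distance `≥ 1/6` from the integers -/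
theorem exists_odd {x : ℝ} (hx : 0 < dist1 x) : ∃ m : ℤ, Odd m ∧ 1 / 6 ≤ dist1 (m * x) := by
  by_contra hcon
  push Not at hcon
  have h : ∀ i : ℕ, 3 ^ i * dist1 x ≤ dist1 (3 ^ i * x) := by
    intro i
    induction i with
    | zero => simp
    | succ i ih =>
      have h1 := hcon (3 ^ i) (Odd.pow (by decide))
      push_cast at h1
      have h2 := dist1_three h1.le
      have e : 3 * (3 ^ i * x) = 3 ^ (i + 1) * x := by ring
      rw [e] at h2
      calc 3 ^ (i + 1) * dist1 x = 3 * (3 ^ i * dist1 x) := by ring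
        _ ≤ 3 * dist1 (3 ^ i * x) := by linarith
        _ ≤ _ := h2
  obtain ⟨i, hi⟩ := pow_unbounded_of_one_lt (1 / dist1 x) (by norm_num : (1 : ℝ) < 3)
  rw [div_lt_iff₀ hx] at hi
  have h1 := h i
  have h2 := dist1_le_half (3 ^ i * x)
  linarith

/-- `η = √2 / 20` -/
noncomputable def eta : ℝ := Real.sqrt 2 / 20

theorem eta_irr : Irrational eta := by
  have h : eta = Real.sqrt 2 / ((20 : ℕ) : ℝ) := by unfold eta; norm_num
  rw [h]
  exact irrational_sqrt_two.div_natCast (by norm_num)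

theorem eta_pos : 0 < eta := by unfold eta; positivity

theorem eta_lt : eta < 1 / 12 := by
  have h : Real.sqrt 2 < 1.5 := (Real.sqrt_lt' (by norm_num)).2 (by norm_num)
  unfold eta
  linarith

/-- near a point with strict inequalities there is an irrational one -/
theorem perturb (a b : ℕ) (t₀ u v : ℝ) (h1 : u < dist1 (a * t₀)) (h2 : v < dist1 (b * t₀)) :
    ∃ t : ℝ, Irrational t ∧ u ≤ dist1 (a * t) ∧ v ≤ dist1 (b * t) := by
  set ε := min (dist1 (a * t₀) - u) (dist1 (b * t₀) - v) with hε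
  have hε0 : 0 < ε := lt_min (by linarith) (by linarith)
  set c : ℝ := (a : ℝ) + b + 1 with hc
  have hc0 : 0 < c := by positivity
  obtain ⟨t, ht, ht1, ht2⟩ := exists_irrational_btwn (show t₀ < t₀ + ε / c by
    have : 0 < ε / c := by positivity
    linarith)
  have hd : |t₀ - t| * c ≤ ε := by
    rw [abs_sub_comm, abs_of_pos (by linarith)]
    have : t - t₀ ≤ ε / c := by linarith
    rwa [le_div_iff₀ hc0] at this
  have ha : (0 : ℝ) ≤ a := Nat.cast_nonneg a
  have hb : (0 : ℝ) ≤ b := Nat.cast_nonneg b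
  have hn := abs_nonneg (t₀ - t)
  refine ⟨t, ht, ?_, ?_⟩
  · have h3 := dist1_sub_le (a * t₀) (a * t)
    rw [← mul_sub, abs_mul, abs_of_nonneg ha] at h3
    have h4 : a * |t₀ - t| ≤ ε := by rw [hc] at hd; nlinarith
    have h5 := min_le_left (dist1 (a * t₀) - u) (dist1 (b * t₀) - v)
    linarith
  · have h3 := dist1_sub_le (b * t₀) (b * t)
    rw [← mul_sub, abs_mul, abs_of_nonneg hb] at h3
    have h4 : b * |t₀ - t| ≤ ε := by rw [hc] at hd; nlinarith
    have h5 := min_le_right (dist1 (a * t₀) - u) (dist1 (b * t₀) - v)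
    linarith

/-- for two speeds there is an irrational time with `‖a t‖ ≥ 1/2 - η` and `‖b t‖ ≥ 2 η` -/
theorem two_speeds (a b : ℕ) (ha : 0 < a) (hb : 0 < b) :
    ∃ t : ℝ, Irrational t ∧ 1 / 2 - eta ≤ dist1 (a * t) ∧ 2 * eta ≤ dist1 (b * t) := by
  have e0 := eta_pos
  have e1 := eta_lt
  have ha0 : (0 : ℝ) < a := by exact_mod_cast ha
  by_cases hdvd : 2 * a ∣ b
  · obtain ⟨c, rfl⟩ := hdvd
    have hc : 1 ≤ c := by
      rcases Nat.eq_zero_or_pos c with h | h
      · rw [h] at hb; omega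
      · exact h
    rcases Nat.eq_or_lt_of_le hc with hc1 | hc2
    · -- the tight case `b = 2 a`
      subst hc1
      refine ⟨(1 / 2 + eta) / a, ?_, ?_, ?_⟩
      · apply Irrational.div_natCast _ ha.ne'
        have h := eta_irr.ratCast_add (1 / 2)
        push_cast at h
        exact h
      · have e : (a : ℝ) * ((1 / 2 + eta) / a) = 1 / 2 + eta := by field_simp
        rw [e]
        exact le_dist1 0 (by rw [Int.cast_zero]; linarith) (by rw [Int.cast_zero]; linarith)
      · have e : ((2 * a * 1 : ℕ) : ℝ) * ((1 / 2 + eta) / a) = 1 + 2 * eta := by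
          push_cast
          field_simp
        rw [e]
        exact le_dist1 1 (by push_cast; linarith) (by push_cast; linarith)
    · -- `b = 2 a c`, `c ≥ 2`
      have hc0 : (2 : ℝ) ≤ c := by exact_mod_cast hc2
      have hcp : (0 : ℝ) < c := by linarith
      have hτ : 3 * eta / (2 * c) ≤ 3 * eta / 4 :=
        div_le_div_of_nonneg_left (by linarith) (by norm_num) (by linarith)
      have hτ0 : 0 < 3 * eta / (2 * c) := by positivity
      refine perturb a (2 * a * c) ((1 / 2 + 3 * eta / (2 * c)) / a) _ _ ?_ ?_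
      · have e : (a : ℝ) * ((1 / 2 + 3 * eta / (2 * c)) / a) = 1 / 2 + 3 * eta / (2 * c) := by
          field_simp
        rw [e]
        refine lt_of_lt_of_le (b := 1 / 2 - 3 * eta / (2 * c)) (by linarith) ?_
        exact le_dist1 0 (by rw [Int.cast_zero]; linarith) (by rw [Int.cast_zero]; linarith)
      · have e : ((2 * a * c : ℕ) : ℝ) * ((1 / 2 + 3 * eta / (2 * c)) / a) =
            ((c : ℤ) : ℝ) + 3 * eta := by
          push_cast
          field_simp
        rw [e]
        refine lt_of_lt_of_le (b := 3 * eta) (by linarith) ?_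
        exact le_dist1 c le_rfl (by linarith)
  · -- `x = b / (2 a)` is not an integer
    have hx : 0 < dist1 ((b : ℝ) / (2 * a)) := by
      rw [dist1, abs_pos, sub_ne_zero]
      intro h
      apply hdvd
      rw [div_eq_iff (by positivity)] at h
      have h2 : (b : ℤ) = round ((b : ℝ) / (2 * a)) * (2 * a) := by exact_mod_cast h
      have h3 : ((2 * a : ℕ) : ℤ) ∣ (b : ℤ) := ⟨round ((b : ℝ) / (2 * a)), by
        rw [mul_comm]; push_cast; exact h2⟩
      exact_mod_cast h3
    obtain ⟨m, hm, hm2⟩ := exists_odd hx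
    refine perturb a b (m / (2 * a)) _ _ ?_ ?_
    · have e : (a : ℝ) * (m / (2 * a)) = m / 2 := by field_simp
      rw [e]
      refine lt_of_lt_of_le (b := 1 / 2) (by linarith) ?_
      obtain ⟨j, rfl⟩ := hm
      refine le_dist1 j ?_ ?_ <;> push_cast <;> linarith
    · have e : (b : ℝ) * (m / (2 * a)) = m * (b / (2 * a)) := by ring
      rw [e]
      linarith

/-- a time with `‖t‖ ≥ 1/2 - η` and `‖2 t‖ ≥ 2 η` is `n + 1/2 ± η` -/
theorem rigid (t : ℝ) (h1 : 1 / 2 - eta ≤ dist1 t) (h2 : 2 * eta ≤ dist1 (2 * t)) :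
    ∃ n : ℤ, t = n + 1 / 2 + eta ∨ t = n + 1 / 2 - eta := by
  refine ⟨⌊t⌋, ?_⟩
  have a1 := dist1_le t ⌊t⌋
  have a2 := dist1_le t (⌊t⌋ + 1)
  have f1 := Int.floor_le t
  have f2 := (Int.lt_floor_add_one t).le
  rw [abs_of_nonneg (by linarith)] at a1
  rw [abs_of_nonpos (by push_cast; linarith)] at a2
  push_cast at a2
  have h3 := dist1_le (2 * t) (2 * ⌊t⌋ + 1)
  push_cast at h3
  rcases abs_cases (2 * t - (2 * (⌊t⌋ : ℝ) + 1)) with ⟨h4, h5⟩ | ⟨h4, h5⟩
  · left
    rw [h4] at h3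
    linarith
  · right
    rw [h4] at h3
    linarith

/-- a positive lower bound for finitely many positive numbers -/
theorem exists_delta {ι : Type*} (S : Finset ι) (f : ι → ℝ) (hf : ∀ i ∈ S, 0 < f i) :
    ∃ δ : ℝ, 0 < δ ∧ δ ≤ 1 / 2 ∧ ∀ i ∈ S, δ ≤ f i := by
  classical
  induction S using Finset.induction_on with
  | empty => exact ⟨1 / 2, by norm_num, le_rfl, by simp⟩
  | insert a S _ ih =>
    obtain ⟨δ, h1, h2, h3⟩ := ih fun i hi => hf i (Finset.mem_insert_of_mem hi)
    refine ⟨min δ (f a), lt_min h1 (hf a (Finset.mem_insert_self a S)),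
      (min_le_left _ _).trans h2, ?_⟩
    intro i hi
    rcases Finset.mem_insert.1 hi with rfl | hi
    · exact min_le_right _ _
    · exact (min_le_left _ _).trans (h3 i hi)

/-- **`MLPS_k` is not determined by finitely many speed sets for every `k ≥ 3`.** -/
theorem result (k : ℕ) (hk : 3 ≤ k) : ¬ FinitelyDetermined k := by
  classical
  obtain ⟨n, rfl⟩ : ∃ n, k = n + 3 := ⟨k - 3, by omega⟩
  rintro ⟨F, hF, hM⟩
  have e0 := eta_pos
  have e1 := eta_lt
  -- irrational times for the speed sets of `F`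
  have ht : ∀ s : Fin (n + 3) → ℕ, s ∈ F → ∃ t : ℝ, Irrational t ∧
      1 / 2 - eta ≤ dist1 (s 0 * t) ∧ 2 * eta ≤ dist1 (s 1 * t) := fun s hs =>
    two_speeds (s 0) (s 1) ((hF s hs).2 0) ((hF s hs).2 1)
  choose! T hT using ht
  obtain ⟨δ, hδ0, hδ1, hδ⟩ := exists_delta (F ×ˢ (Finset.univ : Finset (Fin (n + 3))))
    (fun c => dist1 ((c.1 c.2 : ℝ) * T c.1)) (by
      rintro ⟨s, i⟩ hsi
      have hs : s ∈ F := (Finset.mem_product.1 hsi).1
      exact dist1_pos ((hT s hs).1.natCast_mul ((hF s hs).2 i).ne'))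
  let d : Fin (n + 3) → ℝ := fun i => if i = 0 then 1 / 2 - eta else if i = 1 then 2 * eta else δ
  have hdbox : d ∈ box (n + 3) := by
    intro i
    simp only [d]
    split_ifs
    · constructor <;> linarith
    · constructor <;> linarith
    · exact ⟨hδ0, hδ1⟩
  have hdF : d ∈ {d | d ∈ box (n + 3) ∧ ∀ s ∈ F, d ∈ A s} := by
    refine ⟨hdbox, fun s hs => ⟨hdbox, T s, fun i => ?_⟩⟩
    simp only [d]
    split_ifs with h0 h1
    · rw [h0]; exact (hT s hs).2.1
    · rw [h1]; exact (hT s hs).2.2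
    · exact hδ (s, i) (Finset.mem_product.2 ⟨hs, Finset.mem_univ i⟩)
  rw [← hM] at hdF
  -- an even `v ≥ 4` with `‖v η‖ < δ`
  obtain ⟨N, hN⟩ := exists_nat_gt (1 / δ)
  have hN0 : 0 < N := by
    have h : (0 : ℝ) < N := lt_trans (by positivity) hN
    exact_mod_cast h
  obtain ⟨j, v, hv, hvN, hj⟩ := Real.exists_int_int_abs_mul_sub_le (4 * eta) hN0
  obtain ⟨w, rfl⟩ : ∃ w : ℕ, v = w := ⟨v.toNat, by omega⟩
  have hw : 0 < w := by omega
  have hsmall : dist1 ((4 * w : ℕ) * eta) < δ := by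
    refine (dist1_le _ j).trans_lt ?_
    have e : ((4 * w : ℕ) : ℝ) * eta - j = ((w : ℤ) : ℝ) * (4 * eta) - j := by push_cast; ring
    rw [e]
    refine hj.trans_lt ?_
    rw [div_lt_iff₀ (by positivity)]
    rw [div_lt_iff₀ hδ0] at hN
    nlinarith
  -- the speed set
  let s : Fin (n + 3) → ℕ := fun i =>
    if (i : ℕ) = 0 then 1 else if (i : ℕ) = 1 then 2 else 4 * w + (i : ℕ) - 2
  have hs : IsSpeedSet s := by
    constructor
    · intro x y hxy
      apply Fin.ext
      simp only [s] at hxy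
      split_ifs at hxy <;> omega
    · intro i
      simp only [s]
      split_ifs <;> omega
  obtain ⟨-, t, ht⟩ := hdF.2 s hs
  have t0 := ht 0
  have t1 := ht 1
  have t2 := ht 2
  have s0 : s 0 = 1 := rfl
  have s1 : s 1 = 2 := rfl
  have s2 : s 2 = 4 * w := rfl
  have d0 : d 0 = 1 / 2 - eta := rfl
  have d1 : d 1 = 2 * eta := rfl
  have d2 : d 2 = δ := rfl
  rw [s0, d0, Nat.cast_one, one_mul] at t0
  rw [s1, d1, Nat.cast_ofNat] at t1
  rw [s2, d2] at t2
  obtain ⟨m, hm | hm⟩ := rigid t t0 t1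
  · have e : ((4 * w : ℕ) : ℝ) * t = (4 * w : ℕ) * eta + ((4 * w * m + 2 * w : ℤ) : ℝ) := by
      rw [hm]
      push_cast
      ring
    rw [e, dist1_add_int] at t2
    linarith
  · have e : ((4 * w : ℕ) : ℝ) * t = -((4 * w : ℕ) * eta) + ((4 * w * m + 2 * w : ℤ) : ℝ) := by
      rw [hm]
      push_cast
      ring
    rw [e, dist1_add_int, dist1_neg] at t2
    linarith

end Pool.Agent.Results.MP_b1d502_nt.NotFinitelyDetermined
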